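import Mathlib

set_option autoImplicit false

namespace Pool.Agent.Results.MP_387adc_co.NotUniversal

open Polynomial Finset

/-- All coefficients lie in `{0, 1}` or are rationals `≥ 2`. -/
def InP (p : ℝ[X]) : Prop :=
  ∀ i, p.coeff i = 0 ∨ p.coeff i = 1 ∨ ∃ q : ℚ, 2 ≤ q ∧ p.coeff i = q

/-- The pointwise order on `[s, t]`. -/
def LeP (s t : ℝ) (p q : ℝ[X]) : Prop := ∀ x ∈ Set.Icc s t, p.eval x ≤ q.eval x

theorem pow_le {p : ℝ[X]} (hp : InP p) (h0 : p ≠ 0) {s : ℝ} (hs : 0 ≤ s) :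
    s ^ p.natDegree ≤ p.eval s := by
  have h2 : ∀ q : ℚ, 2 ≤ q → (2 : ℝ) ≤ q := fun q hq => by exact_mod_cast hq
  have hn : ∀ i, 0 ≤ p.coeff i := fun i => by
    rcases hp i with h | h | ⟨q, hq, h⟩ <;> rw [h]
    · exact zero_le_one
    · linarith [h2 q hq]
  have h1 : 1 ≤ p.coeff p.natDegree := by
    rcases hp p.natDegree with h | h | ⟨q, hq, h⟩
    · exact absurd (leadingCoeff_eq_zero.1 h) h0
    · exact h.ge
    · rw [h]; linarith [h2 q hq]
  rw [eval_eq_sum_range]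
  exact (le_mul_of_one_le_left (pow_nonneg hs _) h1).trans
    (single_le_sum (f := fun i => p.coeff i * s ^ i)
      (fun i _ => mul_nonneg (hn i) (pow_nonneg hs i)) (self_mem_range_succ _))

theorem result (s t : ℝ) (hs : 1 < s) (hst : s < t) :
    ¬ ∀ (A : Type) [Countable A] [Preorder A], ∃ f : A → ℝ[X], (∀ a, InP (f a)) ∧
      ∀ a b, a ≤ b ↔ LeP s t (f a) (f b) := by
  intro h
  obtain ⟨f, hP, hf⟩ := h (WithTop (Finset ℕ))
  obtain ⟨d, hd⟩ := pow_unbounded_of_one_lt ((f ⊤).eval s) hs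
  have hdeg : ∀ a, (f a).natDegree ≤ d := fun a => by
    by_cases h0 : f a = 0
    · simp [h0]
    have := (pow_le (hP a) h0 (by linarith : 0 ≤ s)).trans ((hf a ⊤).1 le_top s ⟨le_rfl, hst.le⟩)
    exact ((pow_lt_pow_iff_right₀ hs).1 (this.trans_lt hd)).le
  set R := range (d + 2) with hR
  have mono : ∀ S T : Finset ℕ, S ⊆ T → LeP s t (f S) (f T) := fun S T h =>
    (hf _ _).1 (WithTop.coe_le_coe.2 h)
  have hx : ∀ b : ℕ, ∃ x ∈ Set.Icc s t,
      (f (R.erase b : Finset ℕ)).eval x < (f ({b} : Finset ℕ)).eval x := fun b => by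
    by_contra hc
    push Not at hc
    have := WithTop.coe_le_coe.1 ((hf ({b} : Finset ℕ) (R.erase b : Finset ℕ)).2 hc)
    simpa using this (mem_singleton_self b)
  choose x hxI hx using hx
  have key : ∀ S T : Finset ℕ, T ⊆ R → ∀ b ∈ S, b ∉ T → (f T).eval (x b) < (f S).eval (x b) :=
    fun S T hT b hb hbT => ((mono _ _ (subset_erase.2 ⟨hT, hbT⟩) _ (hxI b)).trans_lt (hx b)).trans_le
      (mono _ _ (singleton_subset_iff.2 hb) _ (hxI b))
  have inj : Set.InjOn x R := fun a ha b hb e => by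
    by_contra hne
    have h1 := key {a} {b} (singleton_subset_iff.2 hb) a (by simp) (by simpa)
    have h2 := key {b} {a} (singleton_subset_iff.2 ha) b (by simp) (by simpa using Ne.symm hne)
    rw [e] at h1
    exact lt_asymm h1 h2
  let w : ℕ → ℝ := fun b => ∏ j ∈ R.erase b, (x b - x j)
  have w0 : ∀ b ∈ R, w b ≠ 0 := fun b hb => prod_ne_zero_iff.2 fun j hj =>
    sub_ne_zero.2 fun e => (mem_erase.1 hj).1 (inj hb (mem_erase.1 hj).2 e).symm
  let S := R.filter fun b => 0 < w b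
  let T := R.filter fun b => ¬ 0 < w b
  have hg : (f S - f T).natDegree ≤ d := (natDegree_sub_le _ _).trans (max_le (hdeg _) (hdeg _))
  have hc := Lagrange.coeff_eq_sum inj (P := f S - f T) (degree_le_natDegree.trans_lt (by
    rw [hR, card_range]; exact_mod_cast (by omega)))
  rw [coeff_eq_zero_of_natDegree_lt (by rw [hR, card_range]; omega)] at hc
  refine absurd hc (ne_of_lt (sum_pos (fun b hb => ?_) ⟨0, by simp [hR]⟩))
  rw [eval_sub]
  by_cases hw : 0 < w b
  · exact div_pos (sub_pos.2 (key S T (filter_subset _ _) b (mem_filter.2 ⟨hb, hw⟩)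
      fun h => (mem_filter.1 h).2 hw)) hw
  · exact div_pos_of_neg_of_neg (sub_neg.2 (key T S (filter_subset _ _) b (mem_filter.2 ⟨hb, hw⟩)
      fun h => hw (mem_filter.1 h).2)) (lt_of_le_of_ne (not_lt.1 hw) (w0 b hb))

end Pool.Agent.Results.MP_387adc_co.NotUniversal
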